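import Pool.Agent.helper17.MK.Spec

/-!
# Row mk:MP (MP_bf63dc_nt): the weights `lM`
-/

set_option autoImplicit false

namespace Pool.Agent.MK

open Finset Real Pool.Agent.helper39.MT Pool.Agent.helper85.FC

theorem MP_choose (n : ℕ) : n ≤ n.choose 3 + 2 := by
  induction n with
  | zero => simp
  | succ n ih =>
    have h0 : (n + 1).choose 3 = n.choose 2 + n.choose 3 := Nat.choose_succ_succ' n 2
    rw [h0]
    rcases Nat.lt_or_ge n 2 with h | h
    · omega
    · have : 1 ≤ n.choose 2 := Nat.choose_pos h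
      omega

theorem MP_abs (L z : ℝ) (K : Finset ℕ) : |lM L z K| ≤ 1 := by
  have hle := RLS.LA_all.2.2.2
  unfold lM
  by_cases h : ∀ p ∈ K, (p : ℝ) ≤ z
  · rw [if_pos h, Finset.sum_eq_zero, mul_zero, sub_zero]
    · exact hle true L K
    · intro p hp
      rw [if_neg]
      rintro ⟨h1, -⟩
      exact absurd (h p hp) (not_le.2 h1)
  · rw [if_neg h]
    push Not at h
    obtain ⟨p, hp, hpz⟩ := h
    rw [Finset.sum_eq_single p]
    · split_ifs
      · have := hle false (L - Real.log (p : ℝ)) (K.erase p)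
        rw [zero_sub, abs_neg, abs_mul]
        norm_num
        linarith
      · norm_num
    · intro q hq hqp
      rw [if_neg]
      rintro ⟨-, h2⟩
      exact absurd (h2 p (Finset.mem_erase.2 ⟨hqp.symm, hp⟩)) (not_le.2 hpz)
    · intro h
      exact absurd hp h

theorem MP_sum1 (L z : ℝ) (g : ℕ → ℝ) (P : Finset ℕ) :
    ∑ K ∈ P.powerset, (if ∀ p ∈ K, (p : ℝ) ≤ z then RLS.lam true L K else 0) * ∏ p ∈ K, g p =
      Mn (RLS.lam true L) g (P.filter fun p : ℕ => (p : ℝ) ≤ z) := by
  unfold Mn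
  have e : (P.filter fun p : ℕ => (p : ℝ) ≤ z).powerset =
      P.powerset.filter fun K : Finset ℕ => ∀ p ∈ K, (p : ℝ) ≤ z := by
    ext K
    simp only [Finset.mem_powerset, Finset.mem_filter, Finset.subset_iff]
    constructor
    · intro h
      exact ⟨fun x hx => (h hx).1, fun x hx => (h hx).2⟩
    · rintro ⟨h1, h2⟩ x hx
      exact ⟨h1 hx, h2 x hx⟩
  rw [e, Finset.sum_filter]
  refine Finset.sum_congr rfl fun K _ => ?_
  split_ifs
  · rfl
  · rw [zero_mul]

theorem MP_sum2 (L z : ℝ) (g : ℕ → ℝ) (P : Finset ℕ) :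
    ∑ K ∈ P.powerset, (∑ p ∈ K, if z < (p : ℝ) ∧ ∀ q ∈ K.erase p, (q : ℝ) ≤ z then
      RLS.lam false (L - Real.log (p : ℝ)) (K.erase p) else 0) * ∏ p ∈ K, g p =
      ∑ p ∈ P.filter (fun p : ℕ => z < (p : ℝ)),
        g p * Mn (RLS.lam false (L - Real.log (p : ℝ))) g (P.filter fun p : ℕ => (p : ℝ) ≤ z) := by
  have e1 : ∀ K ∈ P.powerset, (∑ p ∈ K, if z < (p : ℝ) ∧ ∀ q ∈ K.erase p, (q : ℝ) ≤ z then
      RLS.lam false (L - Real.log (p : ℝ)) (K.erase p) else 0) * ∏ p ∈ K, g p =
      ∑ p ∈ P.filter (fun p : ℕ => z < (p : ℝ)), if p ∈ K ∧ ∀ q ∈ K.erase p, (q : ℝ) ≤ z then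
        RLS.lam false (L - Real.log (p : ℝ)) (K.erase p) * (g p * ∏ q ∈ K.erase p, g q) else 0 := by
    intro K hK
    rw [Finset.mem_powerset] at hK
    rw [Finset.sum_mul, Finset.sum_filter, ← Finset.sum_subset hK]
    · refine Finset.sum_congr rfl fun p hp => ?_
      rw [Finset.mul_prod_erase K g hp]
      by_cases h1 : z < (p : ℝ)
      · rw [if_pos h1]
        by_cases h2 : ∀ q ∈ K.erase p, (q : ℝ) ≤ z
        · rw [if_pos ⟨h1, h2⟩, if_pos ⟨hp, h2⟩]
        · rw [if_neg fun h => h2 h.2, if_neg fun h => h2 h.2, zero_mul]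
      · rw [if_neg h1, if_neg fun h => h1 h.1, zero_mul]
    · intro p _ hp
      rw [if_neg fun h : p ∈ K ∧ _ => hp h.1]
      split_ifs <;> rfl
  rw [Finset.sum_congr rfl e1, Finset.sum_comm]
  refine Finset.sum_congr rfl fun p hp => ?_
  rw [Finset.mem_filter] at hp
  unfold Mn
  rw [Finset.mul_sum, ← Finset.sum_filter]
  refine Finset.sum_nbij' (fun K => K.erase p) (fun K => insert p K) ?_ ?_ ?_ ?_ ?_
  · intro K hK
    rw [Finset.mem_filter, Finset.mem_powerset] at hK
    rw [Finset.mem_powerset]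
    intro q hq
    rw [Finset.mem_filter]
    exact ⟨hK.1 (Finset.mem_of_mem_erase hq), hK.2.2 q hq⟩
  · intro K hK
    rw [Finset.mem_powerset] at hK
    have hpK : p ∉ K := fun h => absurd (Finset.mem_filter.1 (hK h)).2 (not_le.2 hp.2)
    rw [Finset.mem_filter, Finset.mem_powerset]
    refine ⟨?_, Finset.mem_insert_self p K, ?_⟩
    · intro q hq
      rcases Finset.mem_insert.1 hq with rfl | hq
      · exact hp.1
      · exact (Finset.mem_filter.1 (hK hq)).1
    · rw [Finset.erase_insert hpK]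
      intro q hq
      exact (Finset.mem_filter.1 (hK hq)).2
  · intro K hK
    rw [Finset.mem_filter] at hK
    exact Finset.insert_erase hK.2.1
  · intro K hK
    rw [Finset.mem_powerset] at hK
    exact Finset.erase_insert fun h => absurd (Finset.mem_filter.1 (hK h)).2 (not_le.2 hp.2)
  · intro K _
    ring

theorem MP_main (L z : ℝ) (g : ℕ → ℝ) (P : Finset ℕ) : Mn (lM L z) g P =
    Mn (RLS.lam true L) g (P.filter fun p : ℕ => (p : ℝ) ≤ z) -
      1 / 2 * ∑ p ∈ P.filter (fun p : ℕ => z < (p : ℝ)),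
        g p * Mn (RLS.lam false (L - Real.log (p : ℝ))) g (P.filter fun p : ℕ => (p : ℝ) ≤ z) := by
  rw [← MP_sum1, ← MP_sum2, Finset.mul_sum, ← Finset.sum_sub_distrib]
  unfold Mn lM
  refine Finset.sum_congr rfl fun K _ => ?_
  ring

theorem MP_Sg (l : Finset ℕ → ℝ) (T : Finset ℕ) : Sg l T = Mn l (fun _ => 1) T := by
  unfold Sg Mn
  refine Finset.sum_congr rfl fun K _ => ?_
  rw [Finset.prod_const_one, mul_one]

theorem MP : MP_stmt := by
  intro L z
  refine ⟨MP_abs L z, ?_, MP_main L z, fun T => ?_⟩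
  · unfold lM
    rw [if_pos fun p hp => absurd hp (Finset.notMem_empty p), Finset.sum_empty, mul_zero, sub_zero]
    exact RLS.LA_all.1 true L
  · rw [MP_Sg, MP_main]
    simp only [← MP_Sg, one_mul]
    obtain ⟨T₀, hT₀⟩ : ∃ T₀, T₀ = T.filter fun p : ℕ => (p : ℝ) ≤ z := ⟨_, rfl⟩
    rw [← hT₀]
    by_cases h : T₀ = ∅
    · rw [if_pos h, h]
      have e1 : ∀ (b : Bool) (L : ℝ), Sg (RLS.lam b L) ∅ = 1 := by
        intro b L
        unfold Sg
        rw [Finset.powerset_empty, Finset.sum_singleton]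
        exact RLS.LA_all.1 b L
      simp only [e1]
      have e2 : T.filter (fun p : ℕ => z < (p : ℝ)) = T := by
        rw [Finset.filter_eq_self]
        intro p hp
        by_contra hcon
        have : p ∈ T₀ := by
          rw [hT₀, Finset.mem_filter]
          exact ⟨hp, not_lt.1 hcon⟩
        rw [h] at this
        exact absurd this (Finset.notMem_empty p)
      rw [e2, Finset.sum_const, nsmul_eq_mul, mul_one]
      have h3 : (T.card : ℝ) ≤ (T.card.choose 3 : ℝ) + 2 := by exact_mod_cast MP_choose T.card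
      linarith
    · rw [if_neg h, add_zero]
      have h1 : 0 ≤ Sg (RLS.lam true L) T₀ := (RLS.SI_all L T₀).1
      have h2 : ∑ p ∈ T.filter (fun p : ℕ => z < (p : ℝ)),
          Sg (RLS.lam false (L - Real.log (p : ℝ))) T₀ ≤ 0 := by
        refine Finset.sum_nonpos fun p _ => ?_
        have := (RLS.SI_all (L - Real.log (p : ℝ)) T₀).2.2
        rw [if_neg h] at this
        exact this
      linarith

end Pool.Agent.MK
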